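import Pool.Agent.K7.H67.BG.Geo

set_option autoImplicit false

/-! # Multilinear exponential sums with arbitrary functions of all but one variable -/

open Finset

namespace Pool.Agent.K7.H67.BG

open Pool.Agent.Y881.SP

variable {p : ℕ} [Fact p.Prime]

/-- the average of `Φ` over vectors with independent coordinates -/
noncomputable def E {k : ℕ} (w : Fin k → ZMod p → ℝ) (Φ : (Fin k → ZMod p) → ℂ) : ℂ :=
  ∑ u : Fin k → ZMod p, ((∏ i, w i (u i) : ℝ) : ℂ) * Φ u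

/-- the real version -/
noncomputable def Er {k : ℕ} (w : Fin k → ZMod p → ℝ) (Φ : (Fin k → ZMod p) → ℝ) : ℝ :=
  ∑ u : Fin k → ZMod p, (∏ i, w i (u i)) * Φ u

theorem sum_cons {k : ℕ} {M : Type*} [AddCommMonoid M] (f : (Fin (k + 1) → ZMod p) → M) :
    ∑ u, f u = ∑ x : ZMod p, ∑ v : Fin k → ZMod p, f (Fin.cons x v) := by
  rw [← (Fin.consEquiv (fun _ : Fin (k + 1) => ZMod p)).sum_comp, Fintype.sum_prod_type]
  rfl

theorem E_succ {k : ℕ} (w : Fin (k + 1) → ZMod p → ℝ) (Φ : (Fin (k + 1) → ZMod p) → ℂ) :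
    E w Φ = ∑ x, (w 0 x : ℂ) * E (fun i => w i.succ) (fun v => Φ (Fin.cons x v)) := by
  unfold E
  rw [sum_cons]
  refine sum_congr rfl fun x _ => ?_
  rw [mul_sum]
  refine sum_congr rfl fun v _ => ?_
  rw [Fin.prod_univ_succ]
  simp only [Fin.cons_zero, Fin.cons_succ]
  push_cast
  ring

theorem Er_one {k : ℕ} (w : Fin k → ZMod p → ℝ) (hw : ∀ i, Lw (w i)) : Er w (fun _ => 1) = 1 := by
  unfold Er
  simp only [mul_one]
  have h := Finset.prod_univ_sum (fun _ : Fin k => (univ : Finset (ZMod p))) (fun i x => w i x)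
  rw [Fintype.piFinset_univ] at h
  rw [← h]
  exact prod_eq_one fun i _ => (hw i).2

theorem E_norm {k : ℕ} (w : Fin k → ZMod p → ℝ) (hw : ∀ i, Lw (w i)) (Φ : (Fin k → ZMod p) → ℂ) :
    ‖E w Φ‖ ≤ Er w (fun u => ‖Φ u‖) := by
  unfold E Er
  refine (norm_sum_le _ _).trans (le_of_eq (sum_congr rfl fun u _ => ?_))
  rw [norm_mul, Complex.norm_real, Real.norm_of_nonneg (prod_nonneg fun i _ => (hw i).1 _)]

theorem Er_mono {k : ℕ} (w : Fin k → ZMod p → ℝ) (hw : ∀ i, Lw (w i)) (Φ Φ' : (Fin k → ZMod p) → ℝ)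
    (h : ∀ u, Φ u ≤ Φ' u) : Er w Φ ≤ Er w Φ' :=
  sum_le_sum fun u _ => mul_le_mul_of_nonneg_left (h u) (prod_nonneg fun i _ => (hw i).1 _)

theorem Er_sq {k : ℕ} (w : Fin k → ZMod p → ℝ) (hw : ∀ i, Lw (w i)) (Φ : (Fin k → ZMod p) → ℝ) :
    (Er w Φ) ^ 2 ≤ Er w (fun u => Φ u ^ 2) := by
  unfold Er
  have h := wcs (univ : Finset (Fin k → ZMod p)) (fun u => ∏ i, w i (u i)) Φ
    fun u _ => prod_nonneg fun i _ => (hw i).1 _
  have h1 := Er_one w hw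
  unfold Er at h1
  simp only [mul_one] at h1
  rw [h1, one_mul] at h
  exact h

/-- the law of the difference of two independent residues of law `w` -/
noncomputable def dl (w : ZMod p → ℝ) (x : ZMod p) : ℝ := ∑ y, w (x + y) * w y

theorem dl_test (w : ZMod p → ℝ) (F : ZMod p → ℝ) :
    ∑ x, dl w x * F x = ∑ y, ∑ y', w y * w y' * F (y - y') := by
  unfold dl
  simp only [sum_mul]
  rw [sum_comm, sum_comm (s := univ) (t := univ) (f := fun y y' => w y * w y' * F (y - y'))]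
  refine sum_congr rfl fun y' _ => ?_
  rw [← Equiv.sum_comp (Equiv.addRight y') (fun y => w y * w y' * F (y - y'))]
  refine sum_congr rfl fun x _ => ?_
  simp only [Equiv.coe_addRight, add_sub_cancel_right]

theorem dl_Lw (w : ZMod p → ℝ) (hw : Lw w) : Lw (dl w) := by
  refine ⟨fun x => sum_nonneg fun y _ => mul_nonneg (hw.1 _) (hw.1 _), ?_⟩
  have h := dl_test w (fun _ => 1)
  simp only [mul_one] at h
  rw [h, ← sum_mul_sum, hw.2, mul_one]

theorem dl_le (w : ZMod p → ℝ) (hw : Lw w) (m : ℝ) (hm : ∀ x, w x ≤ m) (x : ZMod p) : dl w x ≤ m := by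
  unfold dl
  calc ∑ y, w (x + y) * w y ≤ ∑ y, m * w y := sum_le_sum fun y _ => mul_le_mul_of_nonneg_right (hm _) (hw.1 _)
    _ = m := by rw [← mul_sum, hw.2, mul_one]

theorem ft_dl (w : ZMod p → ℝ) (ξ : ZMod p) : ft (dl w) ξ = ((‖ft w ξ‖ ^ 2 : ℝ) : ℂ) := by
  push_cast
  rw [← Complex.mul_conj']
  unfold ft dl
  rw [map_sum, sum_mul_sum]
  push_cast
  simp only [sum_mul]
  rw [sum_comm, sum_comm (s := univ) (t := univ) (f := fun y y' => (w y : ℂ) * ZMod.stdAddChar (ξ * y) *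
    (starRingEnd ℂ) ((w y' : ℂ) * ZMod.stdAddChar (ξ * y')))]
  refine sum_congr rfl fun y' _ => ?_
  rw [← Equiv.sum_comp (Equiv.addRight y') (fun y => (w y : ℂ) * ZMod.stdAddChar (ξ * y) *
    (starRingEnd ℂ) ((w y' : ℂ) * ZMod.stdAddChar (ξ * y')))]
  refine sum_congr rfl fun x _ => ?_
  simp only [Equiv.coe_addRight]
  rw [map_mul (starRingEnd ℂ), Complex.conj_ofReal, conj_std]
  have e : (ZMod.stdAddChar (ξ * x) : ℂ) = ZMod.stdAddChar (ξ * (x + y')) * ZMod.stdAddChar (-(ξ * y')) := by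
    rw [← AddChar.map_add_eq_mul]
    congr 1
    ring
  rw [e]
  ring

theorem Tr_cons' (ℓ : ZMod p → ℝ) (ls : List (ZMod p → ℝ)) (G : ZMod p → ℝ) (a : ZMod p) :
    Tr (ℓ :: ls) G a = ∑ x, ℓ x * Tr ls G (a * x) := by
  have h := T_cons' ℓ ls (fun b => (G b : ℂ)) a
  rw [T_ofReal] at h
  simp only [T_ofReal] at h
  exact_mod_cast h

theorem Tr_nonneg (ls : List (ZMod p → ℝ)) (h : ∀ ℓ ∈ ls, Lw ℓ) (G : ZMod p → ℝ) (hG : ∀ b, 0 ≤ G b)
    (a : ZMod p) : 0 ≤ Tr ls G a := by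
  induction ls generalizing G with
  | nil => exact hG a
  | cons ℓ ls ih =>
    rw [Tr_cons]
    exact ih (fun ℓ' h' => h ℓ' (List.mem_cons_of_mem _ h')) _ fun b =>
      sum_nonneg fun x _ => mul_nonneg ((h ℓ List.mem_cons_self).1 x) (hG _)

/-- powers of averages -/
theorem pow_avg {ι : Type*} (s : Finset ι) (w f : ι → ℝ) (hw : ∀ i ∈ s, 0 ≤ w i) (h1 : ∑ i ∈ s, w i = 1)
    (hf : ∀ i ∈ s, 0 ≤ f i) (k : ℕ) : (∑ i ∈ s, w i * f i) ^ (2 ^ k) ≤ ∑ i ∈ s, w i * f i ^ (2 ^ k) := by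
  exact Real.pow_arith_mean_le_arith_mean_pow s w f hw h1 hf (2 ^ k)

/-- The Cauchy-Schwarz inequality for all variables but the last one. -/
theorem box (k : ℕ) : ∀ (w : Fin (k + 1) → ZMod p → ℝ), (∀ i, Lw (w i)) → ∀ (a : ZMod p)
    (g : Fin (k + 1) → (Fin (k + 1) → ZMod p) → ℂ), (∀ i u, ‖g i u‖ ≤ 1) →
    (∀ i u v, (∀ j, j ≠ i → u j = v j) → g i u = g i v) →
    ‖E w (fun u => ZMod.stdAddChar (a * ∏ i, u i) * ∏ i, g i u)‖ ^ (2 ^ (k + 1)) ≤
      Tr (List.ofFn (fun i : Fin k => dl (w i.castSucc))) (fun b => ‖ft (w (Fin.last k)) b‖ ^ 2) a := by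
  induction k with
  | zero =>
    intro w hw a g hg hgi
    obtain ⟨c, hc⟩ : ∃ c, c = g 0 (fun _ => 0) := ⟨_, rfl⟩
    have hgc : ∀ (i : Fin (0 + 1)) (u : Fin (0 + 1) → ZMod p), g i u = c := by
      intro i u
      have hi : i = 0 := Fin.ext (by omega)
      rw [hi, hc]
      exact hgi 0 u _ (fun j hj => absurd (Fin.ext (by omega)) hj)
    have h1 : E w (fun u => ZMod.stdAddChar (a * ∏ i, u i) * ∏ i, g i u) =
        c * ft (w 0) a := by
      unfold E ft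
      rw [sum_cons, mul_sum]
      refine sum_congr rfl fun x _ => ?_
      rw [Fintype.sum_unique]
      simp only [Fin.prod_univ_succ, Fin.prod_univ_zero, mul_one, Fin.cons_zero]
      rw [hgc]
      ring
    have h2 : ‖c‖ * ‖ft (w 0) a‖ ≤ ‖ft (w 0) a‖ :=
      mul_le_of_le_one_left (norm_nonneg _) (by rw [hc]; exact hg _ _)
    rw [h1, List.ofFn_zero, Tr_nil, norm_mul]
    exact pow_le_pow_left₀ (by positivity) h2 2
  | succ k ih =>
    intro w hw a g hg hgi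
    obtain ⟨w', hw'⟩ : ∃ w' : Fin (k + 1) → ZMod p → ℝ, w' = fun i => w i.succ := ⟨_, rfl⟩
    have hw'L : ∀ i, Lw (w' i) := fun i => by rw [hw']; exact hw _
    obtain ⟨H, hH⟩ : ∃ H : ZMod p → (Fin (k + 1) → ZMod p) → ℂ, H = fun x v =>
        ZMod.stdAddChar (a * (x * ∏ i, v i)) * ∏ i : Fin (k + 1), g i.succ (Fin.cons x v) := ⟨_, rfl⟩
    have hE : E w (fun u => ZMod.stdAddChar (a * ∏ i, u i) * ∏ i, g i u) =
        E w' (fun v => g 0 (Fin.cons 0 v) * ∑ x, (w 0 x : ℂ) * H x v) := by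
      rw [E_succ, ← hw']
      unfold E
      simp only [mul_sum]
      rw [sum_comm]
      refine sum_congr rfl fun v _ => sum_congr rfl fun x _ => ?_
      rw [Fin.prod_univ_succ (fun i => (Fin.cons x v : Fin (k + 2) → ZMod p) i), Fin.prod_univ_succ (fun i => g i (Fin.cons x v)),
        hgi 0 (Fin.cons x v) (Fin.cons 0 v) (by
          intro j hj
          obtain ⟨j', rfl⟩ := Fin.exists_succ_eq.2 hj
          rw [Fin.cons_succ, Fin.cons_succ])]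
      simp only [Fin.cons_zero, Fin.cons_succ, hH]
      ring
    -- Cauchy-Schwarz
    have hCS : ‖E w (fun u => ZMod.stdAddChar (a * ∏ i, u i) * ∏ i, g i u)‖ ^ 2 ≤
        Er w' (fun v => ‖∑ x, (w 0 x : ℂ) * H x v‖ ^ 2) := by
      rw [hE]
      have h1 := E_norm w' hw'L (fun v => g 0 (Fin.cons 0 v) * ∑ x, (w 0 x : ℂ) * H x v)
      have h2 : Er w' (fun u => ‖g 0 (Fin.cons 0 u) * ∑ x, (w 0 x : ℂ) * H x u‖) ≤
          Er w' (fun v => ‖∑ x, (w 0 x : ℂ) * H x v‖) := by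
        refine Er_mono w' hw'L _ _ fun v => ?_
        rw [norm_mul]
        exact mul_le_of_le_one_left (norm_nonneg _) (hg _ _)
      exact (pow_le_pow_left₀ (norm_nonneg _) (h1.trans h2) 2).trans (Er_sq w' hw'L _)
    obtain ⟨g', hg'⟩ : ∃ g' : ZMod p → ZMod p → Fin (k + 1) → (Fin (k + 1) → ZMod p) → ℂ, g' = fun x x' i v =>
        g i.succ (Fin.cons x v) * (starRingEnd ℂ) (g i.succ (Fin.cons x' v)) := ⟨_, rfl⟩
    have hexp : Er w' (fun v => ‖∑ x, (w 0 x : ℂ) * H x v‖ ^ 2) ≤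
        ∑ q : ZMod p × ZMod p, (w 0 q.1 * w 0 q.2) *
          ‖E w' (fun v => ZMod.stdAddChar ((a * (q.1 - q.2)) * ∏ i, v i) * ∏ i, g' q.1 q.2 i v)‖ := by
      have h1 : ((Er w' (fun v => ‖∑ x, (w 0 x : ℂ) * H x v‖ ^ 2) : ℝ) : ℂ) =
          ∑ q : ZMod p × ZMod p, ((w 0 q.1 * w 0 q.2 : ℝ) : ℂ) *
            E w' (fun v => ZMod.stdAddChar ((a * (q.1 - q.2)) * ∏ i, v i) * ∏ i, g' q.1 q.2 i v) := by
        unfold Er E
        push_cast
        simp only [mul_sum]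
        rw [sum_comm]
        refine sum_congr rfl fun v _ => ?_
        rw [← Complex.mul_conj', map_sum, sum_mul_sum, Fintype.sum_prod_type, mul_sum]
        refine sum_congr rfl fun x _ => ?_
        rw [mul_sum]
        refine sum_congr rfl fun x' _ => ?_
        have e1 : (ZMod.stdAddChar ((a * (x - x')) * ∏ i, v i) : ℂ) =
            ZMod.stdAddChar (a * (x * ∏ i, v i)) * ZMod.stdAddChar (-(a * (x' * ∏ i, v i))) := by
          rw [← AddChar.map_add_eq_mul]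
          congr 1
          ring
        simp only [hH, hg']
        rw [map_mul (starRingEnd ℂ), map_mul (starRingEnd ℂ), map_prod (starRingEnd ℂ), Complex.conj_ofReal, conj_std, e1,
          prod_mul_distrib]
        ring
      have h2 : (Er w' (fun v => ‖∑ x, (w 0 x : ℂ) * H x v‖ ^ 2) : ℝ) =
          ‖((Er w' (fun v => ‖∑ x, (w 0 x : ℂ) * H x v‖ ^ 2) : ℝ) : ℂ)‖ := by
        rw [Complex.norm_real, Real.norm_of_nonneg]
        exact sum_nonneg fun v _ => mul_nonneg (prod_nonneg fun i _ => (hw'L i).1 _) (by positivity)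
      rw [h2, h1]
      refine (norm_sum_le _ _).trans (le_of_eq (sum_congr rfl fun q _ => ?_))
      rw [norm_mul, Complex.norm_real, Real.norm_of_nonneg (mul_nonneg ((hw 0).1 _) ((hw 0).1 _))]
    have hih : ∀ q : ZMod p × ZMod p,
        ‖E w' (fun v => ZMod.stdAddChar ((a * (q.1 - q.2)) * ∏ i, v i) * ∏ i, g' q.1 q.2 i v)‖ ^ (2 ^ (k + 1)) ≤
        Tr (List.ofFn (fun i : Fin k => dl (w' i.castSucc))) (fun b => ‖ft (w' (Fin.last k)) b‖ ^ 2) (a * (q.1 - q.2)) := by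
      intro q
      refine ih w' hw'L (a * (q.1 - q.2)) (g' q.1 q.2) ?_ ?_
      · intro i u
        simp only [hg']
        rw [norm_mul, RCLike.norm_conj]
        exact mul_le_one₀ (hg _ _) (norm_nonneg _) (hg _ _)
      · intro i u v huv
        simp only [hg']
        have h3 : ∀ x : ZMod p, g i.succ (Fin.cons x u) = g i.succ (Fin.cons x v) := by
          intro x
          refine hgi _ _ _ fun j hj => ?_
          refine Fin.cases ?_ (fun j' hj' => ?_) j hj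
          · intro _; rw [Fin.cons_zero, Fin.cons_zero]
          · rw [Fin.cons_succ, Fin.cons_succ]
            exact huv j' fun h => hj' (by rw [h])
        rw [h3, h3]
    have hsum1 : ∑ q : ZMod p × ZMod p, w 0 q.1 * w 0 q.2 = 1 := by
      rw [Fintype.sum_prod_type, ← sum_mul_sum, (hw 0).2, mul_one]
    have hpow := pow_avg (univ : Finset (ZMod p × ZMod p)) (fun q => w 0 q.1 * w 0 q.2)
      (fun q => ‖E w' (fun v => ZMod.stdAddChar ((a * (q.1 - q.2)) * ∏ i, v i) * ∏ i, g' q.1 q.2 i v)‖)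
      (fun q _ => mul_nonneg ((hw 0).1 _) ((hw 0).1 _)) hsum1 (fun q _ => norm_nonneg _) (k + 1)
    have hlist : List.ofFn (fun i : Fin (k + 1) => dl (w i.castSucc)) =
        dl (w 0) :: List.ofFn (fun i : Fin k => dl (w' i.castSucc)) := by
      rw [List.ofFn_succ, hw']
      rfl
    have hlast : w (Fin.last (k + 1)) = w' (Fin.last k) := by rw [hw']; rfl
    rw [hlist, hlast, Tr_cons', dl_test (w 0) (fun d => Tr (List.ofFn (fun i : Fin k => dl (w' i.castSucc)))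
      (fun b => ‖ft (w' (Fin.last k)) b‖ ^ 2) (a * d))]
    calc ‖E w (fun u => ZMod.stdAddChar (a * ∏ i, u i) * ∏ i, g i u)‖ ^ (2 ^ (k + 1 + 1)) =
          (‖E w (fun u => ZMod.stdAddChar (a * ∏ i, u i) * ∏ i, g i u)‖ ^ 2) ^ (2 ^ (k + 1)) := by
            rw [← pow_mul, pow_succ 2 (k + 1), mul_comm]
      _ ≤ (∑ q : ZMod p × ZMod p, (w 0 q.1 * w 0 q.2) *
          ‖E w' (fun v => ZMod.stdAddChar ((a * (q.1 - q.2)) * ∏ i, v i) * ∏ i, g' q.1 q.2 i v)‖) ^ (2 ^ (k + 1)) :=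
            pow_le_pow_left₀ (by positivity) (hCS.trans hexp) _
      _ ≤ _ := hpow
      _ ≤ ∑ q : ZMod p × ZMod p, (w 0 q.1 * w 0 q.2) *
          Tr (List.ofFn (fun i : Fin k => dl (w' i.castSucc))) (fun b => ‖ft (w' (Fin.last k)) b‖ ^ 2) (a * (q.1 - q.2)) :=
            sum_le_sum fun q _ => mul_le_mul_of_nonneg_left (hih q) (mul_nonneg ((hw 0).1 _) ((hw 0).1 _))
      _ = _ := by rw [Fintype.sum_prod_type]

/-- the law conditioned on being nonzero -/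
noncomputable def nrm (D : ZMod p → ℝ) (x : ZMod p) : ℝ := if x = 0 then 0 else D x / (1 - D 0)

theorem nrm_zero (D : ZMod p → ℝ) : nrm D 0 = 0 := if_pos rfl

theorem nrm_sum (D : ZMod p → ℝ) (F : ZMod p → ℝ) :
    ∑ x, nrm D x * F x = (∑ x, D x * F x - D 0 * F 0) / (1 - D 0) := by
  classical
  rw [← add_sum_erase univ (fun x => nrm D x * F x) (mem_univ (0 : ZMod p)),
    ← add_sum_erase univ (fun x => D x * F x) (mem_univ (0 : ZMod p)), nrm_zero, zero_mul, zero_add,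
    add_sub_cancel_left, sum_div]
  refine sum_congr rfl fun x hx => ?_
  unfold nrm
  rw [if_neg (ne_of_mem_erase hx)]
  ring

theorem nrm_Lw (D : ZMod p → ℝ) (hD : Lw D) (h0 : D 0 < 1) : Lw (nrm D) := by
  have h1 : 0 < 1 - D 0 := by linarith
  refine ⟨fun x => ?_, ?_⟩
  · unfold nrm
    split_ifs
    · exact le_rfl
    · exact div_nonneg (hD.1 x) h1.le
  · have h := nrm_sum D (fun _ => 1)
    simp only [mul_one] at h
    rw [h, hD.2, div_self h1.ne']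

theorem nrm_le (D : ZMod p → ℝ) (hD : Lw D) (h0 : D 0 ≤ 1 / 2) (x : ZMod p) : nrm D x ≤ 2 * D x := by
  unfold nrm
  have h1 : 0 < 1 - D 0 := by linarith
  split_ifs
  · exact mul_nonneg (by norm_num) (hD.1 x)
  · rw [div_le_iff₀ h1]
    nlinarith [hD.1 x]

theorem nrm_avg (D : ZMod p → ℝ) (hD : Lw D) (h0 : D 0 < 1) (F : ZMod p → ℂ) (hF : ∀ b, ‖F b‖ ≤ 1) :
    ‖∑ x, (D x : ℂ) * F x - ∑ x, (nrm D x : ℂ) * F x‖ ≤ 2 * D 0 := by
  classical
  have h1 : 0 < 1 - D 0 := by linarith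
  rw [← sum_sub_distrib]
  have h2 : ∀ x, ‖(D x : ℂ) * F x - (nrm D x : ℂ) * F x‖ ≤ |D x - nrm D x| := by
    intro x
    rw [← sub_mul, norm_mul, ← Complex.ofReal_sub, Complex.norm_real, Real.norm_eq_abs]
    exact mul_le_of_le_one_right (abs_nonneg _) (hF x)
  refine (norm_sum_le _ _).trans ((sum_le_sum fun x _ => h2 x).trans ?_)
  rw [← add_sum_erase univ _ (mem_univ (0 : ZMod p)), nrm_zero, sub_zero, abs_of_nonneg (hD.1 0)]
  have h3 : ∀ x ∈ univ.erase (0 : ZMod p), |D x - nrm D x| = D x * (D 0 / (1 - D 0)) := by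
    intro x hx
    unfold nrm
    rw [if_neg (ne_of_mem_erase hx)]
    have e : D x - D x / (1 - D 0) = -(D x * (D 0 / (1 - D 0))) := by
      field_simp
      ring
    rw [e, abs_neg, abs_of_nonneg (mul_nonneg (hD.1 x) (div_nonneg (hD.1 0) h1.le))]
  rw [sum_congr rfl h3, ← sum_mul]
  have h4 : ∑ x ∈ univ.erase (0 : ZMod p), D x = 1 - D 0 := by
    rw [← hD.2, ← add_sum_erase univ D (mem_univ (0 : ZMod p))]
    ring
  rw [h4, mul_div_cancel₀ _ h1.ne']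
  linarith

theorem T_norm (ls : List (ZMod p → ℝ)) (h : ∀ ℓ ∈ ls, Lw ℓ) (F : ZMod p → ℂ) (hF : ∀ b, ‖F b‖ ≤ 1)
    (a : ZMod p) : ‖T ls F a‖ ≤ 1 := by
  induction ls generalizing F with
  | nil => exact hF a
  | cons ℓ ls ih =>
    rw [T_cons]
    refine ih (fun ℓ' h' => h ℓ' (List.mem_cons_of_mem _ h')) _ fun b => ?_
    have hℓ := h ℓ List.mem_cons_self
    calc ‖avg ℓ F b‖ ≤ ∑ x, ‖(ℓ x : ℂ) * F (b * x)‖ := norm_sum_le _ _
      _ ≤ ∑ x, ℓ x * 1 := by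
          refine sum_le_sum fun x _ => ?_
          rw [norm_mul, Complex.norm_real, Real.norm_of_nonneg (hℓ.1 x)]
          exact mul_le_mul_of_nonneg_left (hF _) (hℓ.1 x)
      _ = 1 := by rw [← sum_mul, hℓ.2, one_mul]

/-- conditioning all laws on being nonzero -/
theorem T_nrm (η : ℝ) (hη : η ≤ 1 / 2) (ls : List (ZMod p → ℝ)) (h : ∀ ℓ ∈ ls, Lw ℓ ∧ ℓ 0 ≤ η) (F : ZMod p → ℂ)
    (hF : ∀ b, ‖F b‖ ≤ 1) (a : ZMod p) : ‖T ls F a - T (ls.map nrm) F a‖ ≤ ls.length * (2 * η) := by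
  induction ls generalizing a with
  | nil => simp [T_nil]
  | cons ℓ ls ih =>
    obtain ⟨hℓ, hℓ0⟩ := h ℓ List.mem_cons_self
    have h' : ∀ ℓ ∈ ls, Lw ℓ ∧ ℓ 0 ≤ η := fun ℓ' h'' => h ℓ' (List.mem_cons_of_mem _ h'')
    have hL : ∀ ℓ ∈ ls.map nrm, Lw ℓ := by
      intro ℓ' h''
      rw [List.mem_map] at h''
      obtain ⟨ℓ₀, h3, rfl⟩ := h''
      exact nrm_Lw ℓ₀ (h' ℓ₀ h3).1 (by linarith [(h' ℓ₀ h3).2])
    rw [List.map_cons, T_cons', T_cons']
    have e : ∑ x, (ℓ x : ℂ) * T ls F (a * x) - ∑ x, (nrm ℓ x : ℂ) * T (ls.map nrm) F (a * x) =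
        ∑ x, (ℓ x : ℂ) * (T ls F (a * x) - T (ls.map nrm) F (a * x)) +
        (∑ x, (ℓ x : ℂ) * T (ls.map nrm) F (a * x) - ∑ x, (nrm ℓ x : ℂ) * T (ls.map nrm) F (a * x)) := by
      simp only [mul_sub, sum_sub_distrib]
      ring
    rw [e]
    have h1 : ‖∑ x, (ℓ x : ℂ) * (T ls F (a * x) - T (ls.map nrm) F (a * x))‖ ≤ ls.length * (2 * η) := by
      calc _ ≤ ∑ x, ‖(ℓ x : ℂ) * (T ls F (a * x) - T (ls.map nrm) F (a * x))‖ := norm_sum_le _ _
        _ ≤ ∑ x, ℓ x * (ls.length * (2 * η)) := by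
            refine sum_le_sum fun x _ => ?_
            rw [norm_mul, Complex.norm_real, Real.norm_of_nonneg (hℓ.1 x)]
            exact mul_le_mul_of_nonneg_left (ih h' _) (hℓ.1 x)
        _ = _ := by rw [← sum_mul, hℓ.2, one_mul]
    have h2 := nrm_avg ℓ hℓ (by linarith) (fun x => T (ls.map nrm) F (a * x)) (fun b => T_norm _ hL F hF _)
    calc _ ≤ _ := norm_add_le _ _
      _ ≤ ls.length * (2 * η) + 2 * η := add_le_add h1 (h2.trans (by linarith))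
      _ = _ := by rw [List.length_cons]; push_cast; ring

theorem prod_uni {k : ℕ} (A : Fin k → Finset (ZMod p)) (u : Fin k → ZMod p) :
    ∏ i, uni (A i) (u i) = if u ∈ Fintype.piFinset A then (∏ i, ((A i).card : ℝ))⁻¹ else 0 := by
  classical
  split_ifs with h
  · rw [Fintype.mem_piFinset] at h
    rw [← prod_inv_distrib]
    refine prod_congr rfl fun i _ => ?_
    unfold uni
    rw [if_pos (h i)]
  · rw [Fintype.mem_piFinset] at h
    push Not at h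
    obtain ⟨i, hi⟩ := h
    refine prod_eq_zero (mem_univ i) ?_
    unfold uni
    rw [if_neg hi]

theorem E_uni {k : ℕ} (A : Fin k → Finset (ZMod p)) (Φ : (Fin k → ZMod p) → ℂ) :
    E (fun i => uni (A i)) Φ = (∏ i, ((A i).card : ℂ))⁻¹ * ∑ u ∈ Fintype.piFinset A, Φ u := by
  classical
  unfold E
  have h : ∀ u : Fin k → ZMod p, ((∏ i, uni (A i) (u i) : ℝ) : ℂ) * Φ u =
      if u ∈ Fintype.piFinset A then (∏ i, ((A i).card : ℂ))⁻¹ * Φ u else 0 := by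
    intro u
    rw [prod_uni]
    split_ifs
    · push_cast; rfl
    · simp
  rw [sum_congr rfl fun u _ => h u, sum_ite_mem, univ_inter, ← mul_sum]

/-- Multilinear exponential sums over arbitrary sets of residues, with arbitrary functions of all but one variable. -/
theorem sets (δ : ℝ) (hδ : 0 < δ) : ∃ k₀ : ℕ, ∀ k : ℕ, k₀ ≤ k → ∃ γ : ℝ, 0 < γ ∧ ∃ p₀ : ℕ, ∀ (p : ℕ) [Fact p.Prime],
    p₀ ≤ p → ∀ A : Fin k → Finset (ZMod p), (∀ i, (p : ℝ) ^ δ ≤ (A i).card) → ∀ a : ZMod p, a ≠ 0 →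
    ∀ g : Fin k → (Fin k → ZMod p) → ℂ, (∀ i u, ‖g i u‖ ≤ 1) →
    (∀ i u v, (∀ j, j ≠ i → u j = v j) → g i u = g i v) →
    ‖∑ u ∈ Fintype.piFinset A, ZMod.stdAddChar (a * ∏ i, u i) * ∏ i, g i u‖ ≤
      (∏ i, ((A i).card : ℝ)) * (p : ℝ) ^ (-γ) := by
  obtain ⟨k₀, γ, hγ, p₁, hmul⟩ := multi (δ / 2) (by positivity)
  refine ⟨k₀ + 1, fun k hk => ?_⟩
  obtain ⟨k, rfl⟩ : ∃ k', k = k' + 1 := ⟨k - 1, by omega⟩
  obtain ⟨γ₁, hγ₁⟩ : ∃ γ₁ : ℝ, γ₁ = min γ δ / 2 := ⟨_, rfl⟩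
  have hγ₁0 : 0 < γ₁ := by rw [hγ₁]; positivity
  have hγ₁1 : 2 * γ₁ ≤ γ := by rw [hγ₁]; linarith [min_le_left γ δ]
  have hγ₁2 : 2 * γ₁ ≤ δ := by rw [hγ₁]; linarith [min_le_right γ δ]
  obtain ⟨p₂, _, hp₂⟩ := Pool.Agent.H435R3.Paley.exists_large (1 + 2 * k) γ₁ hγ₁0
  obtain ⟨p₃, _, hp₃⟩ := Pool.Agent.H435R3.Paley.exists_large 2 (δ / 2) (by positivity)
  refine ⟨γ₁ / 2 ^ (k + 1), by positivity, p₁ + p₂ + p₃, fun p _ hp A hA a ha g hg hgi => ?_⟩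
  have hp2 : (2 : ℝ) ≤ p := by exact_mod_cast (Fact.out : p.Prime).two_le
  have hp0 : (0 : ℝ) < p := by linarith
  have hp1 : (1 : ℝ) ≤ p := by linarith
  have hc : ∀ i, (0 : ℝ) < (A i).card := fun i => lt_of_lt_of_le (by positivity) (hA i)
  have hne : ∀ i, (A i).Nonempty := fun i => by rw [← card_pos]; exact_mod_cast hc i
  have hL : ∀ i, Lw (uni (A i)) := fun i => uni_Lw _ (hne i)
  have hsup : ∀ i x, uni (A i) x ≤ (p : ℝ) ^ (-δ) := fun i x => (uni_le _ x).trans (by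
    rw [Real.rpow_neg hp0.le]
    exact inv_anti₀ (by positivity) (hA i))
  have h2δ : 2 * (p : ℝ) ^ (-δ) ≤ (p : ℝ) ^ (-(δ / 2)) := by
    have h3 : (2 : ℝ) ≤ (p : ℝ) ^ (δ / 2) := hp₃ p (by omega)
    calc 2 * (p : ℝ) ^ (-δ) ≤ (p : ℝ) ^ (δ / 2) * (p : ℝ) ^ (-δ) := by gcongr
      _ = _ := by rw [← Real.rpow_add hp0]; congr 1; ring
  have hδ1 : (p : ℝ) ^ (-(δ / 2)) ≤ 1 := by
    rw [Real.rpow_neg hp0.le]
    exact inv_le_one_of_one_le₀ (Real.one_le_rpow hp1 (by positivity))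
  have hhalf : (p : ℝ) ^ (-δ) ≤ 1 / 2 := by linarith
  have hbox := box k (fun i => uni (A i)) hL a g hg hgi
  obtain ⟨ls, hls⟩ : ∃ ls : List (ZMod p → ℝ), ls = List.ofFn (fun i : Fin k => dl (uni (A i.castSucc))) := ⟨_, rfl⟩
  obtain ⟨ρ, hρ⟩ : ∃ ρ : ZMod p → ℝ, ρ = dl (uni (A (Fin.last k))) := ⟨_, rfl⟩
  have hlen : ls.length = k := by rw [hls, List.length_ofFn]
  have hmem : ∀ ℓ ∈ ls, Lw ℓ ∧ ∀ x, ℓ x ≤ (p : ℝ) ^ (-δ) := by
    intro ℓ hℓ
    rw [hls, List.mem_ofFn] at hℓ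
    obtain ⟨i, rfl⟩ := hℓ
    exact ⟨dl_Lw _ (hL _), fun x => dl_le _ (hL _) _ (hsup _) x⟩
  have hT : T ls (ft ρ) a = (Tr ls (fun b => ‖ft (uni (A (Fin.last k))) b‖ ^ 2) a : ℂ) := by
    rw [← T_ofReal]
    congr 1
    funext b
    rw [hρ]
    exact ft_dl _ b
  have hTr0 : 0 ≤ Tr ls (fun b => ‖ft (uni (A (Fin.last k))) b‖ ^ 2) a :=
    Tr_nonneg ls (fun ℓ hℓ => (hmem ℓ hℓ).1) _ (fun b => by positivity) a
  have hTr : Tr ls (fun b => ‖ft (uni (A (Fin.last k))) b‖ ^ 2) a = ‖T ls (ft ρ) a‖ := by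
    rw [hT, Complex.norm_real, Real.norm_of_nonneg hTr0]
  have hρL : Lw ρ := by rw [hρ]; exact dl_Lw _ (hL _)
  have hρm : ∀ x, ρ x ≤ (p : ℝ) ^ (-δ) := by rw [hρ]; exact fun x => dl_le _ (hL _) _ (hsup _) x
  have hnr := T_nrm ((p : ℝ) ^ (-δ)) hhalf ls (fun ℓ hℓ => ⟨(hmem ℓ hℓ).1, (hmem ℓ hℓ).2 0⟩) (ft ρ)
    (fun b => ft_le ρ hρL.1 hρL.2 b) a
  have hm := hmul p (by omega) (ls.map nrm) (by rw [List.length_map, hlen]; omega) (by
    intro ℓ hℓ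
    rw [List.mem_map] at hℓ
    obtain ⟨ℓ₀, h3, rfl⟩ := hℓ
    obtain ⟨h4, h5⟩ := hmem ℓ₀ h3
    refine ⟨nrm_Lw ℓ₀ h4 (by linarith [h5 0]), nrm_zero _, fun x => ?_⟩
    refine (nrm_le ℓ₀ h4 ((h5 0).trans hhalf) x).trans (le_trans ?_ h2δ)
    exact mul_le_mul_of_nonneg_left (h5 x) (by norm_num)) ρ hρL (fun x => (hρm x).trans (by
      exact Real.rpow_le_rpow_of_exponent_le hp1 (by linarith))) a ha
  have hfin : ‖E (fun i => uni (A i)) (fun u => ZMod.stdAddChar (a * ∏ i, u i) * ∏ i, g i u)‖ ^ (2 ^ (k + 1)) ≤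
      (p : ℝ) ^ (-γ₁) := by
    refine hbox.trans ?_
    rw [← hls, hTr]
    have h6 : (p : ℝ) ^ (-γ) ≤ (p : ℝ) ^ (-(2 * γ₁)) := Real.rpow_le_rpow_of_exponent_le hp1 (by linarith)
    have h7 : (p : ℝ) ^ (-δ) ≤ (p : ℝ) ^ (-(2 * γ₁)) := Real.rpow_le_rpow_of_exponent_le hp1 (by linarith)
    have h8 : (1 + 2 * k : ℝ) ≤ (p : ℝ) ^ γ₁ := hp₂ p (by omega)
    calc ‖T ls (ft ρ) a‖ ≤ ‖T (ls.map nrm) (ft ρ) a‖ + ‖T ls (ft ρ) a - T (ls.map nrm) (ft ρ) a‖ := by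
          have h := norm_add_le (T (ls.map nrm) (ft ρ) a) (T ls (ft ρ) a - T (ls.map nrm) (ft ρ) a)
          rwa [add_sub_cancel] at h
      _ ≤ (p : ℝ) ^ (-γ) + ls.length * (2 * (p : ℝ) ^ (-δ)) := add_le_add hm hnr
      _ ≤ (p : ℝ) ^ (-(2 * γ₁)) + k * (2 * (p : ℝ) ^ (-(2 * γ₁))) := by
          rw [hlen]
          gcongr
      _ = (1 + 2 * k) * (p : ℝ) ^ (-(2 * γ₁)) := by ring
      _ ≤ (p : ℝ) ^ γ₁ * (p : ℝ) ^ (-(2 * γ₁)) := by gcongr
      _ = _ := by rw [← Real.rpow_add hp0]; congr 1; ring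
  have hroot : ‖E (fun i => uni (A i)) (fun u => ZMod.stdAddChar (a * ∏ i, u i) * ∏ i, g i u)‖ ≤
      (p : ℝ) ^ (-(γ₁ / 2 ^ (k + 1))) := by
    have h9 : ‖E (fun i => uni (A i)) (fun u => ZMod.stdAddChar (a * ∏ i, u i) * ∏ i, g i u)‖ ^ (2 ^ (k + 1)) ≤
        ((p : ℝ) ^ (-(γ₁ / 2 ^ (k + 1)))) ^ (2 ^ (k + 1)) := by
      refine hfin.trans (le_of_eq ?_)
      rw [← Real.rpow_natCast, ← Real.rpow_mul hp0.le]
      congr 1
      push_cast
      field_simp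
    exact le_of_pow_le_pow_left₀ (by positivity) (by positivity) h9
  rw [E_uni, norm_mul, norm_inv] at hroot
  have hprod : (0 : ℝ) < ∏ i, ((A i).card : ℝ) := prod_pos fun i _ => hc i
  have e : ‖∏ i, ((A i).card : ℂ)‖ = ∏ i, ((A i).card : ℝ) := by
    rw [norm_prod]
    exact prod_congr rfl fun i _ => Complex.norm_natCast _
  rw [e, inv_mul_le_iff₀ hprod] at hroot
  exact hroot

end Pool.Agent.K7.H67.BG
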