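import Pool.Agent.K7.H49.PR.Basic
import Pool.Agent.K7.H67.BG.Box

/-! Exponential sums over the residues `b u ^ m + t` and over the values of multilinear forms plus arbitrary
functions independent of one variable each (helper67). -/

set_option autoImplicit false

namespace Pool.Agent.K7.H67.BG

open Finset

/-- the residue of `b u ^ m + t` -/
def pres {p : ℕ} (b t : ZMod p) (u : (ZMod p)ˣ) (m : ℕ) : ℕ := (b * ((u ^ m : (ZMod p)ˣ) : ZMod p) + t).val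

/-- the residue of `∏ u i + ∑ f i u` -/
def vres {p k : ℕ} (f : Fin k → (Fin k → ZMod p) → ZMod p) (u : Fin k → ZMod p) : ℕ := (∏ i, u i + ∑ i, f i u).val

lemma pres_le {p : ℕ} [NeZero p] (b t : ZMod p) (u : (ZMod p)ˣ) (m : ℕ) : pres b t u m ≤ p := (ZMod.val_lt _).le

lemma vres_le {p k : ℕ} [NeZero p] (f : Fin k → (Fin k → ZMod p) → ZMod p) (u : Fin k → ZMod p) : vres f u ≤ p :=
  (ZMod.val_lt _).le

lemma char_sum {p : ℕ} [NeZero p] {ι : Type*} (s : Finset ι) (F : ι → ZMod p) :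
    (ZMod.stdAddChar (∑ i ∈ s, F i) : ℂ) = ∏ i ∈ s, (ZMod.stdAddChar (F i) : ℂ) := by
  classical
  induction s using Finset.induction_on with
  | empty => rw [sum_empty, prod_empty, AddChar.map_zero_eq_one]
  | insert a s ha ih => rw [sum_insert ha, prod_insert ha, AddChar.map_add_eq_mul, ih]

lemma natCast_ne {p j : ℕ} (h1 : 1 ≤ j) (hp : j < p) : (j : ZMod p) ≠ 0 := by
  intro h
  rw [ZMod.natCast_eq_zero_iff] at h
  exact absurd (Nat.le_of_dvd (by omega) h) (by omega)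

/-- power saving for the family `b u ^ m + t`, `1 ≤ m ≤ x` -/
theorem pw_sup (δ : ℝ) (hδ : 0 < δ) : ∃ γ : ℝ, 0 < γ ∧ ∃ p₀ : ℕ, ∀ p : ℕ, p₀ ≤ p → p.Prime →
    ∀ (b t : ZMod p) (u : (ZMod p)ˣ) (x : ℕ), b ≠ 0 → (p : ℝ) ^ δ ≤ x → x ≤ orderOf u → ∀ j : ℕ, 1 ≤ j → j < p →
      ‖∑ m ∈ Icc 1 x, Pool.Agent.H807R2.Dav.ee ((j : ℝ) * ((pres b t u m : ℝ) / p))‖ ≤
        (Icc 1 x).card * (p : ℝ) ^ (-γ) := by
  obtain ⟨γ, hγ, p₁, hgeo⟩ := geo δ hδ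
  refine ⟨γ, hγ, p₁, fun p hp hpp b t u x hb hx hxu j hj1 hjp => ?_⟩
  have : Fact p.Prime := ⟨hpp⟩
  have : NeZero p := ⟨hpp.ne_zero⟩
  have h2 := hgeo p hp u x hx hxu ((j : ZMod p) * b) (mul_ne_zero (natCast_ne hj1 hjp) hb)
  have h3 : ∑ m ∈ Icc 1 x, Pool.Agent.H807R2.Dav.ee ((j : ℝ) * ((pres b t u m : ℝ) / p)) =
      (ZMod.stdAddChar ((j : ZMod p) * t) : ℂ) * ∑ m ∈ Icc 1 x, (ZMod.stdAddChar ((j : ZMod p) * b * gv u m) : ℂ) := by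
    rw [mul_sum]
    refine sum_congr rfl fun m _ => ?_
    unfold pres
    rw [Pool.Agent.K7.H49.PR.ee_val, ← AddChar.map_add_eq_mul]
    congr 1
    unfold gv
    ring
  rw [h3, norm_mul, AddChar.norm_apply, one_mul, Nat.card_Icc, Nat.add_sub_cancel]
  exact h2

/-- power saving for the family `∏ u i + ∑ f i u`, `u i ∈ A i` -/
theorem vec_sup (δ : ℝ) (hδ : 0 < δ) : ∃ k₀ : ℕ, ∀ k : ℕ, k₀ ≤ k → ∃ γ : ℝ, 0 < γ ∧ ∃ p₀ : ℕ, ∀ p : ℕ, p₀ ≤ p →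
    p.Prime → ∀ A : Fin k → Finset (ZMod p), (∀ i, (p : ℝ) ^ δ ≤ (A i).card) →
      ∀ f : Fin k → (Fin k → ZMod p) → ZMod p,
        (∀ (i : Fin k) (u v : Fin k → ZMod p), (∀ j, j ≠ i → u j = v j) → f i u = f i v) →
        ∀ j : ℕ, 1 ≤ j → j < p →
        ‖∑ u ∈ Fintype.piFinset A, Pool.Agent.H807R2.Dav.ee ((j : ℝ) * ((vres f u : ℝ) / p))‖ ≤
          (Fintype.piFinset A).card * (p : ℝ) ^ (-γ) := by
  obtain ⟨k₀, hk₀⟩ := sets δ hδ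
  refine ⟨k₀, fun k hk => ?_⟩
  obtain ⟨γ, hγ, p₁, hbox⟩ := hk₀ k hk
  refine ⟨γ, hγ, p₁, fun p hp hpp A hA f hf j hj1 hjp => ?_⟩
  have : Fact p.Prime := ⟨hpp⟩
  have : NeZero p := ⟨hpp.ne_zero⟩
  have hcard : ((Fintype.piFinset A).card : ℝ) = ∏ i, ((A i).card : ℝ) := by
    rw [Fintype.card_piFinset]
    push_cast
    rfl
  have h2 := hbox p hp A hA (j : ZMod p) (natCast_ne hj1 hjp)
    (fun i u => (ZMod.stdAddChar ((j : ZMod p) * f i u) : ℂ)) (fun i u => (AddChar.norm_apply _ _).le)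
    (fun i u v huv => by simp only [hf i u v huv])
  have h3 : ∑ u ∈ Fintype.piFinset A, Pool.Agent.H807R2.Dav.ee ((j : ℝ) * ((vres f u : ℝ) / p)) =
      ∑ u ∈ Fintype.piFinset A, (ZMod.stdAddChar ((j : ZMod p) * ∏ i, u i) : ℂ) *
        ∏ i, (ZMod.stdAddChar ((j : ZMod p) * f i u) : ℂ) := by
    refine sum_congr rfl fun u _ => ?_
    unfold vres
    rw [Pool.Agent.K7.H49.PR.ee_val, ← char_sum, ← AddChar.map_add_eq_mul]
    congr 1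
    rw [mul_add, mul_sum]
  rw [h3, hcard]
  exact h2

end Pool.Agent.K7.H67.BG
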