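import Pool.Agent.K7.H67.BG.Mul

set_option autoImplicit false

/-! # Exponential sums over short geometric progressions modulo a prime -/

open Finset

namespace Pool.Agent.K7.H67.BG

open Pool.Agent.Y881.SP

variable {p : ℕ} [Fact p.Prime]

theorem ft_uni (X : Finset (ZMod p)) (b : ZMod p) :
    ft (uni X) b = ((X.card : ℂ))⁻¹ * ∑ x ∈ X, ZMod.stdAddChar (b * x) := by
  classical
  unfold ft uni
  have h : ∀ x : ZMod p, (((if x ∈ X then ((X.card : ℝ))⁻¹ else 0 : ℝ)) : ℂ) * ZMod.stdAddChar (b * x) =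
      if x ∈ X then ((X.card : ℂ))⁻¹ * ZMod.stdAddChar (b * x) else 0 := by
    intro x
    split_ifs
    · push_cast; rfl
    · simp
  rw [sum_congr rfl fun x _ => h x, sum_ite_mem, univ_inter, ← mul_sum]

theorem uni_Lw (X : Finset (ZMod p)) (hX : X.Nonempty) : Lw (uni X) := ⟨uni_nonneg X, uni_sum X hX⟩

theorem uni_le (X : Finset (ZMod p)) (x : ZMod p) : uni X x ≤ ((X.card : ℝ))⁻¹ := by
  unfold uni
  split_ifs
  · exact le_rfl
  · positivity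

theorem avg_uni (X : Finset (ZMod p)) (F : ZMod p → ℂ) (b : ZMod p) :
    avg (uni X) F b = ((X.card : ℂ))⁻¹ * ∑ x ∈ X, F (b * x) := by
  classical
  unfold avg uni
  have h : ∀ x : ZMod p, (((if x ∈ X then ((X.card : ℝ))⁻¹ else 0 : ℝ)) : ℂ) * F (b * x) =
      if x ∈ X then ((X.card : ℂ))⁻¹ * F (b * x) else 0 := by
    intro x
    split_ifs
    · push_cast; rfl
    · simp
  rw [sum_congr rfl fun x _ => h x, sum_ite_mem, univ_inter, ← mul_sum]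

/-- stability of the iterated averages -/
theorem T_near (ℓ : ZMod p → ℝ) (hℓ : Lw ℓ) (F : ZMod p → ℂ) (c : ℝ) (h : ∀ b, ‖avg ℓ F b - F b‖ ≤ c) (n : ℕ)
    (a : ZMod p) : ‖T (List.replicate n ℓ) F a - F a‖ ≤ n * c := by
  induction n generalizing a with
  | zero => simp [T_nil]
  | succ n ih =>
    rw [List.replicate_succ, T_cons']
    have e : ∑ x, (ℓ x : ℂ) * T (List.replicate n ℓ) F (a * x) - F a =
        ∑ x, (ℓ x : ℂ) * (T (List.replicate n ℓ) F (a * x) - F (a * x)) + (avg ℓ F a - F a) := by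
      unfold avg
      simp only [mul_sub, sum_sub_distrib]
      ring
    rw [e]
    have h1 : ‖∑ x, (ℓ x : ℂ) * (T (List.replicate n ℓ) F (a * x) - F (a * x))‖ ≤ n * c := by
      calc _ ≤ ∑ x, ‖(ℓ x : ℂ) * (T (List.replicate n ℓ) F (a * x) - F (a * x))‖ := norm_sum_le _ _
        _ ≤ ∑ x, ℓ x * (n * c) := by
            refine sum_le_sum fun x _ => ?_
            rw [norm_mul, Complex.norm_real, Real.norm_of_nonneg (hℓ.1 x)]
            exact mul_le_mul_of_nonneg_left (ih _) (hℓ.1 x)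
        _ = _ := by rw [← sum_mul, hℓ.2, one_mul]
    calc _ ≤ ‖∑ x, (ℓ x : ℂ) * (T (List.replicate n ℓ) F (a * x) - F (a * x))‖ + ‖avg ℓ F a - F a‖ :=
          norm_add_le _ _
      _ ≤ n * c + c := add_le_add h1 (h a)
      _ = _ := by push_cast; ring

/-- the powers of a residue -/
def gv (g : (ZMod p)ˣ) (m : ℕ) : ZMod p := ((g ^ m : (ZMod p)ˣ) : ZMod p)

/-- the powers `g, g ^ 2, ..., g ^ x` -/
noncomputable def pw (g : (ZMod p)ˣ) (x : ℕ) : Finset (ZMod p) := by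
  classical
  exact (Icc 1 x).image (gv g)

theorem pw_inj (g : (ZMod p)ˣ) (x : ℕ) (hx : x ≤ orderOf g) :
    Set.InjOn (gv g) (Icc 1 x : Finset ℕ) := by
  intro m hm n hn h
  rw [coe_Icc, Set.mem_Icc] at hm hn
  have h1 : g ^ m = g ^ n := Units.ext h
  have h2 : g ^ (m - 1) = g ^ (n - 1) := by
    have e1 : m = (m - 1) + 1 := by omega
    have e2 : n = (n - 1) + 1 := by omega
    rw [e1, e2, pow_succ, pow_succ] at h1
    exact mul_right_cancel h1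
  have h3 := pow_injOn_Iio_orderOf (x := g) (show m - 1 ∈ Set.Iio (orderOf g) by
    rw [Set.mem_Iio]; omega) (show n - 1 ∈ Set.Iio (orderOf g) by rw [Set.mem_Iio]; omega) h2
  omega

theorem pw_card (g : (ZMod p)ˣ) (x : ℕ) (hx : x ≤ orderOf g) : (pw g x).card = x := by
  classical
  unfold pw
  rw [card_image_of_injOn (pw_inj g x hx), Nat.card_Icc]
  omega

theorem pw_sum (g : (ZMod p)ˣ) (x : ℕ) (hx : x ≤ orderOf g) (F : ZMod p → ℂ) :
    ∑ y ∈ pw g x, F y = ∑ m ∈ Icc 1 x, F (gv g m) := by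
  classical
  unfold pw
  rw [sum_image (pw_inj g x hx)]

theorem zero_notMem_pw (g : (ZMod p)ˣ) (x : ℕ) : (0 : ZMod p) ∉ pw g x := by
  classical
  unfold pw
  rw [mem_image]
  rintro ⟨m, -, hm⟩
  exact Units.ne_zero _ hm

/-- a shift changes a sum over consecutive powers very little -/
theorem shift (g : (ZMod p)ˣ) (x j : ℕ) (hjx : j ≤ x) (a : ZMod p) :
    ‖∑ m ∈ Icc 1 x, (ZMod.stdAddChar (a * gv g j * gv g m) : ℂ) -
      ∑ m ∈ Icc 1 x, (ZMod.stdAddChar (a * gv g m) : ℂ)‖ ≤ 2 * j := by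
  set f : ℕ → ℂ := fun m => (ZMod.stdAddChar (a * gv g m) : ℂ) with hf
  have h1 : ∑ m ∈ Icc 1 x, (ZMod.stdAddChar (a * gv g j * gv g m) : ℂ) =
      ∑ m ∈ Ico (1 + j) (x + 1 + j), f m := by
    rw [← sum_Ico_add' f 1 (x + 1) j]
    have e : Icc 1 x = Ico 1 (x + 1) := by ext; rw [mem_Icc, mem_Ico]; omega
    rw [e]
    refine sum_congr rfl fun m _ => ?_
    simp only [hf, gv]
    congr 1
    rw [pow_add]
    push_cast
    ring
  have h2 : ∑ m ∈ Icc 1 x, f m = ∑ m ∈ Ico 1 (1 + j), f m + ∑ m ∈ Ico (1 + j) (x + 1), f m := by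
    have e : Icc 1 x = Ico 1 (x + 1) := by ext; rw [mem_Icc, mem_Ico]; omega
    rw [e, sum_Ico_consecutive f (by omega) (by omega)]
  have h3 : ∑ m ∈ Ico (1 + j) (x + 1 + j), f m = ∑ m ∈ Ico (1 + j) (x + 1), f m +
      ∑ m ∈ Ico (x + 1) (x + 1 + j), f m := (sum_Ico_consecutive f (by omega) (by omega)).symm
  have hb : ∀ u v : ℕ, ‖∑ m ∈ Ico u v, f m‖ ≤ ((v - u : ℕ) : ℝ) := by
    intro u v
    refine (norm_sum_le _ _).trans ?_
    have : ∀ m ∈ Ico u v, ‖f m‖ ≤ 1 := fun m _ => (norm_std _).le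
    refine (sum_le_card_nsmul _ _ _ this).trans ?_
    rw [nsmul_eq_mul, mul_one, Nat.card_Ico]
  rw [h1, h2, h3]
  have e : ∑ m ∈ Ico (1 + j) (x + 1), f m + ∑ m ∈ Ico (x + 1) (x + 1 + j), f m -
      (∑ m ∈ Ico 1 (1 + j), f m + ∑ m ∈ Ico (1 + j) (x + 1), f m) =
      ∑ m ∈ Ico (x + 1) (x + 1 + j), f m - ∑ m ∈ Ico 1 (1 + j), f m := by ring
  rw [e]
  have b1 := hb (x + 1) (x + 1 + j)
  have b2 := hb 1 (1 + j)
  have c1 : x + 1 + j - (x + 1) = j := by omega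
  have c2 : 1 + j - 1 = j := by omega
  rw [c1] at b1
  rw [c2] at b2
  calc _ ≤ ‖∑ m ∈ Ico (x + 1) (x + 1 + j), f m‖ + ‖∑ m ∈ Ico 1 (1 + j), f m‖ := norm_sub_le _ _
    _ ≤ j + j := add_le_add b1 b2
    _ = _ := by ring

/-- Exponential sums over at least `p ^ δ` consecutive powers of a residue. -/
theorem geo (δ : ℝ) (hδ : 0 < δ) : ∃ γ : ℝ, 0 < γ ∧ ∃ p₀ : ℕ, ∀ (p : ℕ) [Fact p.Prime], p₀ ≤ p →
    ∀ (g : (ZMod p)ˣ) (x : ℕ), (p : ℝ) ^ δ ≤ x → x ≤ orderOf g → ∀ a : ZMod p, a ≠ 0 →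
      ‖∑ m ∈ Icc 1 x, (ZMod.stdAddChar (a * gv g m) : ℂ)‖ ≤ x * (p : ℝ) ^ (-γ) := by
  obtain ⟨k₀, γ, hγ, p₁, hmul⟩ := multi (δ / 4) (by positivity)
  obtain ⟨γ', hγ'⟩ : ∃ γ' : ℝ, γ' = min γ (δ / 2) / 2 := ⟨_, rfl⟩
  have hγ'0 : 0 < γ' := by rw [hγ']; positivity
  have hγ'1 : 2 * γ' ≤ γ := by rw [hγ']; linarith [min_le_left γ (δ / 2)]
  have hγ'2 : 2 * γ' ≤ δ / 2 := by rw [hγ']; linarith [min_le_right γ (δ / 2)]
  obtain ⟨p₂, _, hp₂⟩ := Pool.Agent.H435R3.Paley.exists_large (1 + 2 * k₀) γ' hγ'0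
  obtain ⟨p₃, _, hp₃⟩ := Pool.Agent.H435R3.Paley.exists_large 2 (δ / 4) (by positivity)
  refine ⟨γ', hγ'0, p₁ + p₂ + p₃, fun p _ hp g x hx hxg a ha => ?_⟩
  have hp2 : (2 : ℝ) ≤ p := by exact_mod_cast (Fact.out : p.Prime).two_le
  have hp0 : (0 : ℝ) < p := by linarith
  have hp1 : (1 : ℝ) ≤ p := by linarith
  have hx0 : (0 : ℝ) < x := lt_of_lt_of_le (by positivity) hx
  have hxn : 0 < x := by exact_mod_cast hx0
  obtain ⟨J, hJ⟩ : ∃ J : ℕ, J = ⌊(x : ℝ) * (p : ℝ) ^ (-(δ / 2))⌋₊ := ⟨_, rfl⟩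
  have hδ2 : (p : ℝ) ^ (-(δ / 2)) ≤ 1 := by
    rw [Real.rpow_neg hp0.le]
    exact inv_le_one_of_one_le₀ (Real.one_le_rpow hp1 (by positivity))
  have hJhi : (J : ℝ) ≤ x * (p : ℝ) ^ (-(δ / 2)) := by
    rw [hJ]; exact Nat.floor_le (by positivity)
  have hJx : J ≤ x := by
    have : (J : ℝ) ≤ x := hJhi.trans (mul_le_of_le_one_right hx0.le hδ2)
    exact_mod_cast this
  have hJlo : (p : ℝ) ^ (δ / 4) ≤ J := by
    have h1 := Nat.lt_floor_add_one ((x : ℝ) * (p : ℝ) ^ (-(δ / 2)))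
    rw [← hJ] at h1
    have h2 : (p : ℝ) ^ (δ / 2) ≤ x * (p : ℝ) ^ (-(δ / 2)) := by
      calc (p : ℝ) ^ (δ / 2) = (p : ℝ) ^ δ * (p : ℝ) ^ (-(δ / 2)) := by
            rw [← Real.rpow_add hp0]; congr 1; ring
        _ ≤ _ := by gcongr
    have h3 : (p : ℝ) ^ (δ / 2) = (p : ℝ) ^ (δ / 4) * (p : ℝ) ^ (δ / 4) := by
      rw [← Real.rpow_add hp0]; congr 1; ring
    have h4 : (2 : ℝ) ≤ (p : ℝ) ^ (δ / 4) := hp₃ p (by omega)
    nlinarith
  have hJ0 : (0 : ℝ) < J := lt_of_lt_of_le (by positivity) hJlo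
  have hJn : 0 < J := by exact_mod_cast hJ0
  have hcx : (pw g x).card = x := pw_card g x hxg
  have hcJ : (pw g J).card = J := pw_card g J (hJx.trans hxg)
  have hnex : (pw g x).Nonempty := by rw [← card_pos, hcx]; exact hxn
  have hneJ : (pw g J).Nonempty := by rw [← card_pos, hcJ]; exact hJn
  have hinv : ∀ y : ℝ, (p : ℝ) ^ (δ / 4) ≤ y → y⁻¹ ≤ (p : ℝ) ^ (-(δ / 4)) := fun y hy => by
    rw [Real.rpow_neg hp0.le]
    exact inv_anti₀ (by positivity) hy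
  have h1 := hmul p (by omega) (List.replicate k₀ (uni (pw g J))) (by simp) (by
    intro ℓ hℓ
    rw [List.eq_of_mem_replicate hℓ]
    refine ⟨uni_Lw _ hneJ, ?_, fun y => (uni_le _ y).trans ?_⟩
    · unfold uni
      rw [if_neg (zero_notMem_pw g J)]
    · rw [hcJ]; exact hinv _ hJlo) (uni (pw g x)) (uni_Lw _ hnex) (fun y => (uni_le _ y).trans (by
      rw [hcx]
      refine hinv _ (le_trans ?_ hx)
      exact Real.rpow_le_rpow_of_exponent_le hp1 (by linarith))) a ha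
  have hF : ∀ b, ft (uni (pw g x)) b = ((x : ℂ))⁻¹ * ∑ m ∈ Icc 1 x, (ZMod.stdAddChar (b * gv g m) : ℂ) := by
    intro b
    rw [ft_uni, hcx, pw_sum g x hxg (fun y => (ZMod.stdAddChar (b * y) : ℂ))]
  have hnear : ∀ b, ‖avg (uni (pw g J)) (ft (uni (pw g x))) b - ft (uni (pw g x)) b‖ ≤ 2 * J / x := by
    intro b
    have e : avg (uni (pw g J)) (ft (uni (pw g x))) b - ft (uni (pw g x)) b =
        ((J : ℂ))⁻¹ * ∑ m ∈ Icc 1 J, (ft (uni (pw g x)) (b * gv g m) - ft (uni (pw g x)) b) := by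
      rw [avg_uni, hcJ, pw_sum g J (hJx.trans hxg) (fun y => ft (uni (pw g x)) (b * y)), sum_sub_distrib, sum_const,
        Nat.card_Icc, mul_sub, nsmul_eq_mul]
      congr 1
      have : ((J + 1 - 1 : ℕ) : ℂ) = J := by simp
      rw [this, ← mul_assoc, inv_mul_cancel₀ (by exact_mod_cast hJn.ne'), one_mul]
    rw [e, norm_mul, norm_inv, Complex.norm_natCast]
    have h2 : ‖∑ m ∈ Icc 1 J, (ft (uni (pw g x)) (b * gv g m) - ft (uni (pw g x)) b)‖ ≤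
        J * (2 * J / x) := by
      refine (norm_sum_le _ _).trans ?_
      have h3 : ∀ m ∈ Icc 1 J, ‖ft (uni (pw g x)) (b * gv g m) - ft (uni (pw g x)) b‖ ≤ 2 * J / x := by
        intro m hm
        rw [mem_Icc] at hm
        rw [hF, hF, ← mul_sub, norm_mul, norm_inv, Complex.norm_natCast]
        have h4 := shift g x m (by omega) b
        have h5 : (m : ℝ) ≤ J := by exact_mod_cast hm.2
        calc ((x : ℝ))⁻¹ * _ ≤ ((x : ℝ))⁻¹ * (2 * m) := mul_le_mul_of_nonneg_left h4 (by positivity)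
          _ ≤ ((x : ℝ))⁻¹ * (2 * J) := by gcongr
          _ = _ := by ring
      refine (sum_le_card_nsmul _ _ _ h3).trans ?_
      rw [nsmul_eq_mul, Nat.card_Icc, Nat.add_sub_cancel]
    calc ((J : ℝ))⁻¹ * _ ≤ ((J : ℝ))⁻¹ * (J * (2 * J / x)) := mul_le_mul_of_nonneg_left h2 (by positivity)
      _ = _ := by rw [← mul_assoc, inv_mul_cancel₀ hJ0.ne', one_mul]
  have h2 := T_near (uni (pw g J)) (uni_Lw _ hneJ) (ft (uni (pw g x))) _ hnear k₀ a
  have h3 : ‖ft (uni (pw g x)) a‖ ≤ (p : ℝ) ^ (-γ') := by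
    have h4 : ‖ft (uni (pw g x)) a‖ ≤ (p : ℝ) ^ (-γ) + k₀ * (2 * J / x) := by
      have e : ft (uni (pw g x)) a = T (List.replicate k₀ (uni (pw g J))) (ft (uni (pw g x))) a -
          (T (List.replicate k₀ (uni (pw g J))) (ft (uni (pw g x))) a - ft (uni (pw g x)) a) := by ring
      rw [e]
      exact (norm_sub_le _ _).trans (add_le_add h1 h2)
    have h5 : 2 * (J : ℝ) / x ≤ 2 * (p : ℝ) ^ (-(δ / 2)) := by
      rw [div_le_iff₀ hx0]
      linarith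
    have h6 : (p : ℝ) ^ (-γ) ≤ (p : ℝ) ^ (-(2 * γ')) := Real.rpow_le_rpow_of_exponent_le hp1 (by linarith)
    have h7 : (p : ℝ) ^ (-(δ / 2)) ≤ (p : ℝ) ^ (-(2 * γ')) := Real.rpow_le_rpow_of_exponent_le hp1 (by linarith)
    have h8 : (1 + 2 * k₀ : ℝ) ≤ (p : ℝ) ^ γ' := hp₂ p (by omega)
    calc _ ≤ (p : ℝ) ^ (-γ) + k₀ * (2 * J / x) := h4
      _ ≤ (p : ℝ) ^ (-(2 * γ')) + k₀ * (2 * (p : ℝ) ^ (-(2 * γ'))) := by
          gcongr
          exact h5.trans (by gcongr)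
      _ = (1 + 2 * k₀) * (p : ℝ) ^ (-(2 * γ')) := by ring
      _ ≤ (p : ℝ) ^ γ' * (p : ℝ) ^ (-(2 * γ')) := by gcongr
      _ = _ := by rw [← Real.rpow_add hp0]; congr 1; ring
  rw [hF, norm_mul, norm_inv, Complex.norm_natCast, inv_mul_le_iff₀ hx0] at h3
  exact h3

end Pool.Agent.K7.H67.BG
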