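import Pool.Agent.Y881.SP.Walk

set_option autoImplicit false

/-! # Multilinear exponential sums over residues modulo a prime: densities -/

open Finset

namespace Pool.Agent.K7.H67.BG

open Pool.Agent.Y881.SP

variable {p : ℕ} [Fact p.Prime]

/-- a probability density -/
def Lw (ℓ : ZMod p → ℝ) : Prop := (∀ x, 0 ≤ ℓ x) ∧ ∑ x, ℓ x = 1

/-- the average of `F (b x)` over `x` -/
noncomputable def avg (ℓ : ZMod p → ℝ) (F : ZMod p → ℂ) (b : ZMod p) : ℂ := ∑ x, (ℓ x : ℂ) * F (b * x)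

/-- the average of `G (b x)` over `x`, real version -/
noncomputable def avgR (ℓ : ZMod p → ℝ) (G : ZMod p → ℝ) (b : ZMod p) : ℝ := ∑ x, ℓ x * G (b * x)

/-- the average of `F (a x_1 ... x_k)` -/
noncomputable def T : List (ZMod p → ℝ) → (ZMod p → ℂ) → ZMod p → ℂ
  | [], F => F
  | ℓ :: ls, F => T ls (avg ℓ F)

/-- the average of `G (a x_1 ... x_k)`, real version -/
noncomputable def Tr : List (ZMod p → ℝ) → (ZMod p → ℝ) → ZMod p → ℝ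
  | [], G => G
  | ℓ :: ls, G => Tr ls (avgR ℓ G)

theorem T_nil (F : ZMod p → ℂ) : T [] F = F := rfl

theorem T_cons (ℓ : ZMod p → ℝ) (ls : List (ZMod p → ℝ)) (F : ZMod p → ℂ) : T (ℓ :: ls) F = T ls (avg ℓ F) := rfl

theorem Tr_nil (G : ZMod p → ℝ) : Tr [] G = G := rfl

theorem Tr_cons (ℓ : ZMod p → ℝ) (ls : List (ZMod p → ℝ)) (G : ZMod p → ℝ) : Tr (ℓ :: ls) G = Tr ls (avgR ℓ G) := rfl

theorem avg_comm (ℓ ℓ' : ZMod p → ℝ) (F : ZMod p → ℂ) : avg ℓ (avg ℓ' F) = avg ℓ' (avg ℓ F) := by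
  funext b
  unfold avg
  simp only [mul_sum]
  rw [sum_comm]
  refine sum_congr rfl fun x _ => sum_congr rfl fun y _ => ?_
  rw [mul_right_comm b y x]
  ring

theorem T_cons' (ℓ : ZMod p → ℝ) (ls : List (ZMod p → ℝ)) (F : ZMod p → ℂ) (a : ZMod p) :
    T (ℓ :: ls) F a = ∑ x, (ℓ x : ℂ) * T ls F (a * x) := by
  induction ls generalizing F with
  | nil => rfl
  | cons ℓ' ls ih =>
    rw [T_cons, T_cons, avg_comm, ← T_cons, ih]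
    rfl

theorem Tr_mono (ls : List (ZMod p → ℝ)) (h : ∀ ℓ ∈ ls, Lw ℓ) (G G' : ZMod p → ℝ) (hG : ∀ b, G b ≤ G' b)
    (a : ZMod p) : Tr ls G a ≤ Tr ls G' a := by
  induction ls generalizing G G' with
  | nil => exact hG a
  | cons ℓ ls ih =>
    rw [Tr_cons, Tr_cons]
    refine ih (fun ℓ' h' => h ℓ' (List.mem_cons_of_mem _ h')) _ _ fun b => ?_
    exact sum_le_sum fun x _ => mul_le_mul_of_nonneg_left (hG _) ((h ℓ List.mem_cons_self).1 x)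

theorem T_ofReal (ls : List (ZMod p → ℝ)) (G : ZMod p → ℝ) (a : ZMod p) :
    T ls (fun b => (G b : ℂ)) a = (Tr ls G a : ℂ) := by
  induction ls generalizing G with
  | nil => rfl
  | cons ℓ ls ih =>
    rw [T_cons, Tr_cons, ← ih]
    congr 1
    funext b
    unfold avg avgR
    push_cast
    rfl

theorem avg_sq_le (ℓ : ZMod p → ℝ) (hℓ : Lw ℓ) (F : ZMod p → ℂ) (b : ZMod p) :
    ‖avg ℓ F b‖ ^ 2 ≤ avgR ℓ (fun b => ‖F b‖ ^ 2) b := by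
  have h1 : ‖avg ℓ F b‖ ≤ ∑ x, ℓ x * ‖F (b * x)‖ := by
    refine (norm_sum_le _ _).trans (le_of_eq (sum_congr rfl fun x _ => ?_))
    rw [norm_mul, Complex.norm_real, Real.norm_of_nonneg (hℓ.1 x)]
  have h2 := wcs univ ℓ (fun x => ‖F (b * x)‖) fun x _ => hℓ.1 x
  rw [hℓ.2, one_mul] at h2
  exact (pow_le_pow_left₀ (norm_nonneg _) h1 2).trans h2

theorem T_sq_le (ls : List (ZMod p → ℝ)) (h : ∀ ℓ ∈ ls, Lw ℓ) (F : ZMod p → ℂ) (a : ZMod p) :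
    ‖T ls F a‖ ^ 2 ≤ Tr ls (fun b => ‖F b‖ ^ 2) a := by
  induction ls generalizing F with
  | nil => exact le_rfl
  | cons ℓ ls ih =>
    rw [T_cons, Tr_cons]
    refine (ih (fun ℓ' h' => h ℓ' (List.mem_cons_of_mem _ h')) _).trans ?_
    refine Tr_mono ls (fun ℓ' h' => h ℓ' (List.mem_cons_of_mem _ h')) _ _ (fun b => ?_) a
    exact avg_sq_le ℓ (h ℓ List.mem_cons_self) F b

theorem T_le (ls : List (ZMod p → ℝ)) (h : ∀ ℓ ∈ ls, Lw ℓ ∧ ℓ 0 = 0) (G : ZMod p → ℂ) (M : ℝ)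
    (hG : ∀ b, b ≠ 0 → ‖G b‖ ≤ M) (a : ZMod p) (ha : a ≠ 0) : ‖T ls G a‖ ≤ M := by
  induction ls generalizing G with
  | nil => exact hG a ha
  | cons ℓ ls ih =>
    rw [T_cons]
    refine ih (fun ℓ' h' => h ℓ' (List.mem_cons_of_mem _ h')) _ fun b hb => ?_
    obtain ⟨h1, h2⟩ := h ℓ List.mem_cons_self
    calc ‖avg ℓ G b‖ ≤ ∑ x, ‖(ℓ x : ℂ) * G (b * x)‖ := norm_sum_le _ _
      _ ≤ ∑ x, ℓ x * M := by
          refine sum_le_sum fun x _ => ?_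
          rw [norm_mul, Complex.norm_real, Real.norm_of_nonneg (h1.1 x)]
          by_cases hx : x = 0
          · rw [hx, h2, zero_mul, zero_mul]
          · exact mul_le_mul_of_nonneg_left (hG _ (mul_ne_zero hb hx)) (h1.1 x)
      _ = M := by rw [← sum_mul, h1.2, one_mul]

theorem ft_neg (ρ : ZMod p → ℝ) (ξ : ZMod p) : ft ρ (-ξ) = (starRingEnd ℂ) (ft ρ ξ) := by
  unfold ft
  rw [map_sum]
  refine sum_congr rfl fun x _ => ?_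
  rw [map_mul (starRingEnd ℂ), Complex.conj_ofReal, conj_std, neg_mul]

/-- the Fourier transform of the law of `λ x - λ' x'` -/
theorem ft_R (ℓ ρ : ZMod p → ℝ) (hz : ℓ 0 = 0) (ξ : ZMod p) :
    ft (R ℓ ρ) ξ = ((‖avg ℓ (ft ρ) ξ‖ ^ 2 : ℝ) : ℂ) := by
  have h1 : ft (R ℓ ρ) ξ = ∑ l, ∑ l', (ℓ l : ℂ) * ℓ l' * (ft ρ (ξ * l) * ft ρ (-(ξ * l'))) := by
    unfold R
    have h2 : ft (fun x => ∑ l, ∑ l', ℓ l * ℓ l' * conv ρ (-(l' / l)) (x / l)) ξ =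
        ∑ l, ∑ l', (ℓ l : ℂ) * ℓ l' * ∑ x, (conv ρ (-(l' / l)) (x / l) : ℂ) * ZMod.stdAddChar (ξ * x) := by
      unfold ft
      push_cast
      simp only [sum_mul, mul_sum]
      rw [sum_comm]
      refine sum_congr rfl fun l _ => ?_
      rw [sum_comm]
      refine sum_congr rfl fun l' _ => sum_congr rfl fun x _ => ?_
      ring
    rw [h2]
    refine sum_congr rfl fun l _ => sum_congr rfl fun l' _ => ?_
    by_cases hl : l = 0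
    · rw [hl, hz]
      simp
    · congr 1
      rw [← Equiv.sum_comp (Equiv.mulLeft₀ l hl)]
      have h3 : ∀ z : ZMod p, (conv ρ (-(l' / l)) (Equiv.mulLeft₀ l hl z / l) : ℂ) *
          ZMod.stdAddChar (ξ * Equiv.mulLeft₀ l hl z) =
          (conv ρ (-(l' / l)) z : ℂ) * ZMod.stdAddChar ((ξ * l) * z) := by
        intro z
        rw [Equiv.mulLeft₀_apply, mul_div_cancel_left₀ _ hl, mul_assoc]
      rw [sum_congr rfl fun z _ => h3 z]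
      have h4 := ft_conv ρ (-(l' / l)) (ξ * l)
      unfold ft at h4 ⊢
      rw [h4]
      congr 3
      funext x
      congr 3
      field_simp
  rw [h1]
  have h5 : ∀ l l' : ZMod p, (ℓ l : ℂ) * ℓ l' * (ft ρ (ξ * l) * ft ρ (-(ξ * l'))) =
      ((ℓ l : ℂ) * ft ρ (ξ * l)) * (starRingEnd ℂ) ((ℓ l' : ℂ) * ft ρ (ξ * l')) := by
    intro l l'
    rw [ft_neg, map_mul (starRingEnd ℂ), Complex.conj_ofReal]
    ring
  rw [sum_congr rfl fun l _ => sum_congr rfl fun l' _ => h5 l l', ← sum_mul_sum, ← map_sum]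
  push_cast
  rw [← Complex.mul_conj']
  rfl

/-- one step of the iteration -/
theorem T_step (ℓ : ZMod p → ℝ) (hz : ℓ 0 = 0) (ls : List (ZMod p → ℝ)) (h : ∀ ℓ ∈ ls, Lw ℓ)
    (ρ : ZMod p → ℝ) (a : ZMod p) : ‖T (ℓ :: ls) (ft ρ) a‖ ^ 2 ≤ ‖T ls (ft (R ℓ ρ)) a‖ := by
  have h1 : T ls (ft (R ℓ ρ)) a = (Tr ls (fun b => ‖avg ℓ (ft ρ) b‖ ^ 2) a : ℂ) := by
    rw [← T_ofReal]
    congr 1
    funext b
    exact ft_R ℓ ρ hz b
  rw [T_cons, h1, Complex.norm_real]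
  exact (T_sq_le ls h _ a).trans (le_abs_self _)

/-- the iterated law -/
noncomputable def fold (ls : List (ZMod p → ℝ)) (ρ : ZMod p → ℝ) : ZMod p → ℝ := ls.foldl (fun ρ ℓ => R ℓ ρ) ρ

theorem T_iter (ls1 ls2 : List (ZMod p → ℝ)) (h1 : ∀ ℓ ∈ ls1, Lw ℓ ∧ ℓ 0 = 0) (h2 : ∀ ℓ ∈ ls2, Lw ℓ)
    (ρ : ZMod p → ℝ) (a : ZMod p) :
    ‖T (ls1 ++ ls2) (ft ρ) a‖ ^ (2 ^ ls1.length) ≤ ‖T ls2 (ft (fold ls1 ρ)) a‖ := by
  induction ls1 generalizing ρ with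
  | nil => simp [fold]
  | cons ℓ ls1 ih =>
    rw [List.length_cons, pow_succ 2, mul_comm, pow_mul, List.cons_append]
    have h3 := T_step ℓ (h1 ℓ List.mem_cons_self).2 (ls1 ++ ls2) (fun ℓ' h' => by
      rcases List.mem_append.1 h' with h' | h'
      · exact (h1 ℓ' (List.mem_cons_of_mem _ h')).1
      · exact h2 ℓ' h') ρ a
    refine (pow_le_pow_left₀ (by positivity) h3 _).trans ?_
    exact ih (fun ℓ' h' => h1 ℓ' (List.mem_cons_of_mem _ h')) (R ℓ ρ)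

theorem R_Lw (ℓ ρ : ZMod p → ℝ) (hℓ : Lw ℓ) (hz : ℓ 0 = 0) (hρ : Lw ρ) : Lw (R ℓ ρ) :=
  ⟨R_nonneg ℓ ρ hℓ.1 hρ.1, R_sum ℓ ρ hz hℓ.2 hρ.2⟩

/-- the last step: a bilinear sum -/
theorem avg_last (ℓ : ZMod p → ℝ) (hℓ : Lw ℓ) (m : ℝ) (hm : ∀ x, ℓ x ≤ m) (ρ : ZMod p → ℝ) (b : ZMod p)
    (hb : b ≠ 0) : ‖avg ℓ (ft ρ) b‖ ^ 2 ≤ m * (p * ∑ x, ρ x ^ 2) := by
  refine (avg_sq_le ℓ hℓ _ b).trans ?_
  unfold avgR
  calc ∑ x, ℓ x * ‖ft ρ (b * x)‖ ^ 2 ≤ ∑ x, m * ‖ft ρ (b * x)‖ ^ 2 :=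
        sum_le_sum fun x _ => mul_le_mul_of_nonneg_right (hm x) (by positivity)
    _ = m * (p * ∑ x, ρ x ^ 2) := by
        rw [← mul_sum, ← parseval, ← Equiv.sum_comp (Equiv.mulLeft₀ b hb) (fun ξ => ‖ft ρ ξ‖ ^ 2)]
        rfl

/-- the norms of the iterated laws -/
theorem norms (δ : ℝ) (hδ : 0 < δ) : ∃ n : ℕ, ∃ p₀ : ℕ, ∀ (p : ℕ) [Fact p.Prime], p₀ ≤ p →
    ∀ (ls : List (ZMod p → ℝ)), ls.length = n → (∀ ℓ ∈ ls, Lw ℓ ∧ ℓ 0 = 0 ∧ ∀ x, ℓ x ≤ (p : ℝ) ^ (-δ)) →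
    ∀ ρ : ZMod p → ℝ, Lw ρ → (∀ x, ρ x ≤ (p : ℝ) ^ (-δ)) →
      ∑ x, fold ls ρ x ^ 2 ≤ (p : ℝ) ^ (-1 + δ / 2) := by
  obtain ⟨γ, hγ⟩ : ∃ γ : ℝ, γ = δ / 2 := ⟨_, rfl⟩
  have hγ0 : 0 < γ := by rw [hγ]; positivity
  obtain ⟨κ, hκ, p₁, hflat⟩ := flat γ hγ0
  obtain ⟨κ₂, hκ₂⟩ : ∃ κ₂ : ℝ, κ₂ = min κ γ / 2 := ⟨_, rfl⟩
  have hκ₂0 : 0 < κ₂ := by rw [hκ₂]; positivity
  have hκ₂1 : 2 * κ₂ ≤ κ := by rw [hκ₂]; linarith [min_le_left κ γ]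
  have hκ₂2 : 2 * κ₂ ≤ γ := by rw [hκ₂]; linarith [min_le_right κ γ]
  obtain ⟨n, hn⟩ : ∃ n : ℕ, 1 < n * κ₂ := by
    obtain ⟨n, hn⟩ := exists_nat_gt (1 / κ₂)
    exact ⟨n, by rwa [div_lt_iff₀ hκ₂0] at hn⟩
  obtain ⟨p₂, hp₂2, hp₂⟩ := Pool.Agent.H435R3.Paley.exists_large 2 κ₂ hκ₂0
  refine ⟨n, p₁ + p₂, fun p _ hp ls hls h ρ hρ hρm => ?_⟩
  have hp2 : (2 : ℝ) ≤ p := by exact_mod_cast (Fact.out : p.Prime).two_le
  have hp0 : (0 : ℝ) < p := by linarith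
  have hp1 : (1 : ℝ) ≤ p := by linarith
  have hmono : ∀ x y : ℝ, x ≤ y → (p : ℝ) ^ x ≤ (p : ℝ) ^ y := fun x y h =>
    Real.rpow_le_rpow_of_exponent_le hp1 h
  have key : ∀ (ls : List (ZMod p → ℝ)), (∀ ℓ ∈ ls, Lw ℓ ∧ ℓ 0 = 0 ∧ ∀ x, ℓ x ≤ (p : ℝ) ^ (-δ)) →
      ∀ (i : ℕ) (ρ : ZMod p → ℝ), Lw ρ → (∑ x, ρ x ^ 2 ≤ (p : ℝ) ^ (-1 + γ) ∨
        ∑ x, ρ x ^ 2 ≤ (p : ℝ) ^ (-γ - i * κ₂)) →
      (∑ x, fold ls ρ x ^ 2 ≤ (p : ℝ) ^ (-1 + γ) ∨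
        ∑ x, fold ls ρ x ^ 2 ≤ (p : ℝ) ^ (-γ - ((i + ls.length : ℕ) : ℝ) * κ₂)) := by
    intro ls
    induction ls with
    | nil => intro _ i ρ _ h; simpa [fold] using h
    | cons ℓ ls ih =>
      intro h i ρ hρ hi
      obtain ⟨hℓ, hz, hm⟩ := h ℓ List.mem_cons_self
      have h1 := ih (fun ℓ' h' => h ℓ' (List.mem_cons_of_mem _ h')) (i + 1) (R ℓ ρ) (R_Lw ℓ ρ hℓ hz hρ) ?_
      · rw [List.length_cons]
        have e : i + (ls.length + 1) = i + 1 + ls.length := by omega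
        rw [e]
        exact h1
      · by_cases hlo : ∑ x, ρ x ^ 2 ≤ (p : ℝ) ^ (-1 + γ)
        · left
          refine le_trans ?_ hlo
          refine (R_sq ℓ ρ hℓ.1 hz hℓ.2).trans ?_
          have hc1 : ∀ μ, ∑ z, conv ρ μ z ^ 2 ≤ ∑ x, ρ x ^ 2 := by
            intro μ
            have h2 := J_le ρ hρ.1 hρ.2 μ
            rw [J_eq] at h2
            exact le_of_mul_le_mul_left h2 hp0
          calc _ ≤ ∑ l, ∑ l', ℓ l * ℓ l' * ∑ x, ρ x ^ 2 :=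
                sum_le_sum fun l _ => sum_le_sum fun l' _ =>
                  mul_le_mul_of_nonneg_left (hc1 _) (mul_nonneg (hℓ.1 _) (hℓ.1 _))
            _ = _ := by
                simp only [← sum_mul]
                rw [← sum_mul_sum, hℓ.2, one_mul, one_mul]
        · right
          have hhi := hi.resolve_left hlo
          have h1 := hflat p (by omega) ρ hρ.1 hρ.2 (not_le.1 hlo).le
            (hhi.trans (hmono _ _ (by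
              have : (0 : ℝ) ≤ i * κ₂ := by positivity
              linarith)))
          have h2 := R_flat ℓ ρ hℓ.1 hz hℓ.2 _ hm hρ.1 hρ.2 ((p : ℝ) ^ κ) ((p : ℝ) ^ γ)
            (by positivity) h1.le
          have h3 : ((p : ℝ) ^ κ)⁻¹ + (p : ℝ) ^ γ * (p : ℝ) ^ (-δ) ≤ (p : ℝ) ^ (-κ₂) := by
            have e1 : ((p : ℝ) ^ κ)⁻¹ ≤ (p : ℝ) ^ (-(2 * κ₂)) := by
              rw [← Real.rpow_neg hp0.le]
              exact hmono _ _ (by linarith)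
            have e2 : (p : ℝ) ^ γ * (p : ℝ) ^ (-δ) ≤ (p : ℝ) ^ (-(2 * κ₂)) := by
              rw [← Real.rpow_add hp0]
              exact hmono _ _ (by linarith)
            have e3 : (2 : ℝ) ≤ (p : ℝ) ^ κ₂ := hp₂ p (by omega)
            have e4 : 2 * (p : ℝ) ^ (-(2 * κ₂)) ≤ (p : ℝ) ^ (-κ₂) := by
              calc 2 * (p : ℝ) ^ (-(2 * κ₂)) ≤ (p : ℝ) ^ κ₂ * (p : ℝ) ^ (-(2 * κ₂)) :=
                    mul_le_mul_of_nonneg_right e3 (by positivity)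
                _ = _ := by
                    rw [← Real.rpow_add hp0]
                    congr 1
                    ring
            linarith
          refine h2.trans ?_
          calc (((p : ℝ) ^ κ)⁻¹ + (p : ℝ) ^ γ * (p : ℝ) ^ (-δ)) * ∑ x, ρ x ^ 2
              ≤ (p : ℝ) ^ (-κ₂) * (p : ℝ) ^ (-γ - i * κ₂) :=
                mul_le_mul h3 hhi (sum_nonneg fun x _ => by positivity) (by positivity)
            _ = _ := by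
                rw [← Real.rpow_add hp0]
                congr 1
                push_cast
                ring
  have h0 : ∑ x, ρ x ^ 2 ≤ (p : ℝ) ^ (-γ - ((0 : ℕ) : ℝ) * κ₂) := by
    calc ∑ x, ρ x ^ 2 ≤ ∑ x, (p : ℝ) ^ (-δ) * ρ x := sum_le_sum fun x _ => by
          rw [sq]
          exact mul_le_mul_of_nonneg_right (hρm x) (hρ.1 x)
      _ = (p : ℝ) ^ (-δ) := by rw [← mul_sum, hρ.2, mul_one]
      _ ≤ _ := hmono _ _ (by push_cast; linarith)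
  rw [← hγ]
  rcases key ls h 0 ρ hρ (Or.inr h0) with h1 | h1
  · exact h1
  · refine h1.trans (hmono _ _ ?_)
    rw [zero_add, hls]
    linarith

/-- multilinear exponential sums for densities -/
theorem multi (δ : ℝ) (hδ : 0 < δ) : ∃ k₀ : ℕ, ∃ γ : ℝ, 0 < γ ∧ ∃ p₀ : ℕ, ∀ (p : ℕ) [Fact p.Prime], p₀ ≤ p →
    ∀ (ls : List (ZMod p → ℝ)), k₀ ≤ ls.length → (∀ ℓ ∈ ls, Lw ℓ ∧ ℓ 0 = 0 ∧ ∀ x, ℓ x ≤ (p : ℝ) ^ (-δ)) →
    ∀ ρ : ZMod p → ℝ, Lw ρ → (∀ x, ρ x ≤ (p : ℝ) ^ (-δ)) → ∀ a : ZMod p, a ≠ 0 →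
      ‖T ls (ft ρ) a‖ ≤ (p : ℝ) ^ (-γ) := by
  obtain ⟨n, p₀, hn⟩ := norms δ hδ
  refine ⟨n + 1, δ / 4 / 2 ^ n, by positivity, p₀, fun p _ hp ls hls h ρ hρ hρm a ha => ?_⟩
  have hp2 : (2 : ℝ) ≤ p := by exact_mod_cast (Fact.out : p.Prime).two_le
  have hp0 : (0 : ℝ) < p := by linarith
  have hp1 : (1 : ℝ) ≤ p := by linarith
  obtain ⟨ls1, hls1⟩ : ∃ ls1, ls1 = ls.take n := ⟨_, rfl⟩
  have hlen1 : ls1.length = n := by rw [hls1, List.length_take]; omega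
  have hsub1 : ∀ ℓ ∈ ls1, ℓ ∈ ls := fun ℓ hℓ => by rw [hls1] at hℓ; exact List.mem_of_mem_take hℓ
  obtain ⟨ℓ, ls2, hls2⟩ : ∃ ℓ ls2, ls.drop n = ℓ :: ls2 := by
    have h1 : (ls.drop n) ≠ [] := by
      intro h2
      have h3 := congrArg List.length h2
      rw [List.length_drop, List.length_nil] at h3
      omega
    exact List.exists_cons_of_ne_nil h1
  have hsub2 : ∀ ℓ' ∈ ℓ :: ls2, ℓ' ∈ ls := fun ℓ' h' => by
    rw [← hls2] at h'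
    exact List.mem_of_mem_drop h'
  have hsplit : ls = ls1 ++ (ℓ :: ls2) := by rw [hls1, ← hls2, List.take_append_drop]
  have h1 := T_iter ls1 (ℓ :: ls2) (fun ℓ' h' => ⟨(h ℓ' (hsub1 ℓ' h')).1, (h ℓ' (hsub1 ℓ' h')).2.1⟩)
    (fun ℓ' h' => (h ℓ' (hsub2 ℓ' h')).1) ρ a
  rw [← hsplit, hlen1, T_cons] at h1
  have h2 := hn p hp ls1 hlen1 (fun ℓ' h' => h ℓ' (hsub1 ℓ' h')) ρ hρ hρm
  obtain ⟨hℓ, hz, hm⟩ := h ℓ (hsub2 ℓ List.mem_cons_self)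
  have h3 : ‖T ls2 (avg ℓ (ft (fold ls1 ρ))) a‖ ≤ (p : ℝ) ^ (-(δ / 4)) := by
    refine T_le ls2 (fun ℓ' h' => ⟨(h ℓ' (hsub2 ℓ' (List.mem_cons_of_mem _ h'))).1,
      (h ℓ' (hsub2 ℓ' (List.mem_cons_of_mem _ h'))).2.1⟩) _ _ (fun b hb => ?_) a ha
    have h4 := avg_last ℓ hℓ _ hm (fold ls1 ρ) b hb
    have h5 : (p : ℝ) ^ (-δ) * (p * ∑ x, fold ls1 ρ x ^ 2) ≤ ((p : ℝ) ^ (-(δ / 4))) ^ 2 := by
      calc (p : ℝ) ^ (-δ) * (p * ∑ x, fold ls1 ρ x ^ 2) ≤ (p : ℝ) ^ (-δ) * (p * (p : ℝ) ^ (-1 + δ / 2)) := by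
            gcongr
        _ = ((p : ℝ) ^ (-(δ / 4))) ^ 2 := by
            rw [← Real.rpow_natCast, ← Real.rpow_mul hp0.le]
            nth_rewrite 2 [← Real.rpow_one (p : ℝ)]
            rw [← Real.rpow_add hp0, ← Real.rpow_add hp0]
            congr 1
            push_cast
            ring
    exact abs_le_of_sq_le_sq' (h4.trans h5) (by positivity) |>.2
  have h4 : ‖T ls (ft ρ) a‖ ^ (2 ^ n) ≤ ((p : ℝ) ^ (-(δ / 4 / 2 ^ n))) ^ (2 ^ n) := by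
    refine (h1.trans h3).trans (le_of_eq ?_)
    rw [← Real.rpow_natCast, ← Real.rpow_mul hp0.le]
    congr 1
    push_cast
    field_simp
  exact le_of_pow_le_pow_left₀ (by positivity) (by positivity) h4

end Pool.Agent.K7.H67.BG
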